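import Pool.Agent.Y45.MON.LStm

/-!
# Project MON, job LG4: assembly of the logical core
-/

set_option autoImplicit false

namespace Pool.Agent.Y665.MON

open Turing Pool.Agent.Y45.MON

/-- the tape alphabet -/
abbrev GA : Type := TM2to1.Γ' PartrecToTM2.K' (fun _ => PartrecToTM2.Γ')

theorem finite_ga : Finite GA := by
  have fK : Finite PartrecToTM2.K' := by
    refine Finite.of_injective (fun k : PartrecToTM2.K' => match k with
      | .main => (0 : Fin 4) | .rev => 1 | .aux => 2 | .stack => 3) ?_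
    intro a b h
    cases a <;> cases b <;> simp_all
  exact inferInstanceAs (Finite (Bool × (PartrecToTM2.K' → Option PartrecToTM2.Γ')))

/-- enumeration of the symbols -/
def symb {Γ Λ : Type} : (Option Γ ⊕ Option Γ) ⊕ ((Λ × Γ) ⊕ (Fin 4 ⊕ Fin 3)) → Sy Γ Λ
  | .inl (.inl a) => Sy.lc a
  | .inl (.inr a) => Sy.rc a
  | .inr (.inl (q, a)) => Sy.rh q a
  | .inr (.inr (.inl i)) =>
    if i = 0 then Sy.al else if i = 1 then Sy.ga else if i = 2 then Sy.ep else Sy.eq
  | .inr (.inr (.inr k)) => Sy.ex k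

theorem finite_sy (Γ Λ : Type) [Finite Γ] [Finite Λ] : Finite (Sy Γ Λ) := by
  refine Finite.of_surjective (symb (Γ := Γ) (Λ := Λ)) ?_
  intro s
  cases s with
  | lc a => exact ⟨.inl (.inl a), rfl⟩
  | rc a => exact ⟨.inl (.inr a), rfl⟩
  | rh q a => exact ⟨.inr (.inl (q, a)), rfl⟩
  | al => exact ⟨.inr (.inr (.inl 0)), by simp [symb]⟩
  | ga => exact ⟨.inr (.inr (.inl 1)), by simp [symb]⟩
  | ep => exact ⟨.inr (.inr (.inl 2)), by simp [symb]⟩
  | eq => exact ⟨.inr (.inr (.inl 3)), by simp [symb]⟩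
  | ex k => exact ⟨.inr (.inr (.inr k)), rfl⟩

theorem x1_comm {G : Type} [Group G] (M1 m2 : ℕ) (a b : G) (h : a * b = b * a) :
    X1 M1 m2 a b = 1 := by
  have hab : Commute a b := h
  have hP : Commute a (P0 M1 a b) := by
    unfold P0
    exact (((Commute.refl a).mul_right hab).mul_right
      ((Commute.refl a).pow_right M1)).mul_right hab.inv_right
  have hP2 : Commute a (P0 M1 a b ^ m2) := hP.pow_right m2
  unfold X1
  rw [hP2.eq]
  group

theorem vv_comm {r : ℕ} (w : WP r) {G : Type} [Group G] (j : Fin r) (a b : G)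
    (h : a * b = b * a) : vv w j a b = a ^ w.δ j * a⁻¹ := by
  unfold vv Wj
  rw [x1_comm w.M1 w.m2 a b h]
  simp only [one_pow, mul_one]
  have hab : Commute a b := h
  have h1 : b * a⁻¹ * b⁻¹ = a⁻¹ := by
    rw [← (hab.inv_left).eq]
    group
  rw [mul_assoc (a ^ w.δ j), mul_assoc (a ^ w.δ j), h1]

theorem eps_val {Γ Λ : Type} [Inhabited Γ] [Inhabited Λ] (M : TM0.Machine Γ Λ) (l : List Γ)
    (p q : ℕ) (S : Set ℕ) (j : Sy Γ Λ) (c c' : Col (Sy Γ Λ)) :
    eps M l p q S j c c' = p ∨ eps M l p q S j c c' = q ∨ eps M l p q S j c c' = p * q := by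
  cases j <;> simp only [eps] <;> (try split_ifs) <;> simp

theorem coreJob : CoreJob := by
  intro hMon hHalt hLaw hInd hInf hTo hComp
  classical
  obtain ⟨Λ, i1, i2, M, hM⟩ := Helper270.WPSource.exists_machine
  have fG : Finite GA := finite_ga
  have fS : Finite (Sy GA Λ) := finite_sy GA Λ
  obtain ⟨r, ⟨φ⟩⟩ : ∃ r : ℕ, Nonempty (Sy GA Λ ≃ Fin r) := Finite.exists_equiv_fin _
  obtain ⟨w, n0, hw, hn0, hw2⟩ := hMon r (fun j => if IsE (φ.symm j) then 2 else 1) (by
    intro j
    by_cases h : IsE (φ.symm j)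
    · right; exact if_pos h
    · left; exact if_neg h)
  obtain ⟨p, hp1, hp⟩ := Nat.exists_infinite_primes n0
  obtain ⟨q, hq1, hq⟩ := Nat.exists_infinite_primes (p + 1)
  have hpq : p ≠ q := by omega
  obtain ⟨F, hF, hF2⟩ := hComp Λ M p q (p * q) r w φ
  have hδ : ∀ j : Sy GA Λ, w.δ (φ j) = if IsE j then 2 else 1 := by
    intro j
    rw [hw]
    simp only [Equiv.symm_apply_apply]
  have hopv : ∀ (G : Type) [Group G],
      Opv G (fun (j : Sy GA Λ) (a b : G) => vv w (φ j) a b) := by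
    intro G _
    constructor
    · intro j a b h hj
      rw [vv_comm w (φ j) a b h, hδ, if_neg hj]
      group
    · intro j a b h hj
      rw [vv_comm w (φ j) a b h, hδ, if_pos hj]
      group
  have hsat : ∀ (n : ℕ) (G : Type) [Group G],
      (∀ W ∈ F n, ∀ f : ℕ → G, FreeGroup.lift f (FreeGroup.mk W) = 1) ↔
      ∀ t, IsLaw M (inp n) p q (p * q) t →
        ∀ f : ℕ → G, Tm.ev (fun (j : Sy GA Λ) (a b : G) => vv w (φ j) a b) f t = 1 := by
    intro n G _
    constructor
    · intro h t ht f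
      rw [← hTo (Sy GA Λ) r w φ G f t]
      exact h _ ((hF2 n _).2 ⟨t, ht, rfl⟩) f
    · intro h W hW f
      obtain ⟨t, ht, rfl⟩ := (hF2 n W).1 hW
      rw [hTo (Sy GA Λ) r w φ G f t]
      exact h t ht f
  refine ⟨p, q, F, fun n => Hlt M (inp n), hp, hq, hpq, hF, ?_, ?_, ?_,
    fun i => toL w φ (tU p i), ?_⟩
  · intro h
    apply Helper270.WPSource.u_not_computable
    refine h.of_eq ?_
    intro n
    exact hM n
  · intro n
    rw [hF2]
    refine ⟨_, IsLaw.l0, ?_⟩
    simp only [toL, pwL]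
    exact List.flatten_replicate_singleton.symm
  · intro n hn G _ h
    exact hHalt GA Λ M (inp n) p q (p * q) ((Nat.coprime_primes hp hq).2 hpq) hn G _ (hopv G)
      ((hsat n G).1 h)
  · intro n hn S
    have hN : p * q ≠ 1 := by
      intro h
      exact hp.one_lt.ne' (Nat.eq_one_of_mul_eq_one_right h)
    have hpr : ∀ s : ℕ, s.Prime → s ∣ p * q → n0 ≤ s := by
      intro s hs hd
      rcases (Nat.Prime.dvd_mul hs).1 hd with h | h
      · rw [(Nat.prime_dvd_prime_iff_eq hs hp).1 h]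
        exact hp1
      · rw [(Nat.prime_dvd_prime_iff_eq hs hq).1 h]
        omega
    have heps : ∀ (j : Sy GA Λ) (c c' : Col (Sy GA Λ)),
        eps M (inp n) p q S j c c' ∣ p * q ∧ eps M (inp n) p q S j c c' ≠ 1 := by
      intro j c c'
      rcases eps_val M (inp n) p q S j c c' with h | h | h
      · rw [h]
        exact ⟨dvd_mul_right p q, hp.one_lt.ne'⟩
      · rw [h]
        exact ⟨dvd_mul_left q p, hq.one_lt.ne'⟩
      · rw [h]
        exact ⟨dvd_rfl, hN⟩
    obtain ⟨G, iG, col, rk, hP⟩ := hw2 (p * q) hN hpr (Col (Sy GA Λ)) ⟨Col.bas⟩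
      (fun j c c' => Col.node (φ.symm j) c c')
      (fun j c c' => eps M (inp n) p q S (φ.symm j) c c') (fun j c c' => heps _ c c')
    have hAM : AM (p * q) G (fun (j : Sy GA Λ) (a b : G) => vv w (φ j) a b)
        (eps M (inp n) p q S) col rk := by
      refine ⟨hopv G, hP.exp, hP.rkc, fun j a b h => hP.rk1 (φ j) a b h, ?_, ?_, ?_,
        fun j a b h => hP.cmt (φ j) a b h⟩
      · intro j a b h
        have := hP.ord (φ j) a b h
        simpa only [Equiv.symm_apply_apply] using this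
      · intro j a b h
        have := hP.clr (φ j) a b h
        simpa only [Equiv.symm_apply_apply] using this
      · intro j j' a b a' b' k h h' h1 h2
        have := hP.cmm (φ j) (φ j') a b a' b' k h h' h1 h2
        exact ⟨φ.injective this.1, this.2⟩
    obtain ⟨x, y, hxy, hxy2⟩ := hP.gen
    refine ⟨G, iG, (hsat n G).2 (hLaw GA Λ M (inp n) p q S hp hq hpq hn G _ col rk hAM),
      ⟨x, y, hxy, hxy2⟩,
      hInf GA Λ (p * q) G _ _ col rk (fun j c c' => (heps j c c').2) hAM ⟨x, y, hxy2⟩, ?_⟩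
    intro i
    rw [← hInd GA Λ M (inp n) p q S hp hq hpq G _ col rk hAM ⟨x, y, hxy2⟩ i]
    constructor
    · intro h f
      rw [← hTo (Sy GA Λ) r w φ G f (tU p i)]
      exact h f
    · intro h f
      rw [hTo (Sy GA Λ) r w φ G f (tU p i)]
      exact h f

end Pool.Agent.Y665.MON
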